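import Mathlib

set_option autoImplicit false

namespace Pool.Agent.H69.Runge

/-- There is no perfect square `N^2 = E^2 + R` with `R ≠ 0` and `|R|` too small. -/
lemma nosq (N E R : ℤ) (hE : 0 < E) (h : N ^ 2 = E ^ 2 + R) (hR : R ≠ 0)
    (h1 : -(2 * E) + 1 < R) (h2 : R < 2 * E + 1) : False := by
  have a1 : N ^ 2 < (E + 1) ^ 2 := by nlinarith
  have a2 : (E - 1) ^ 2 < N ^ 2 := by nlinarith
  have b1 : |N| < E + 1 := by
    apply lt_of_pow_lt_pow_left₀ 2 (by linarith)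
    rw [sq_abs]; exact a1
  have b2 : E - 1 < |N| := by
    apply lt_of_pow_lt_pow_left₀ 2 (abs_nonneg N)
    rw [sq_abs]; exact a2
  have b3 : |N| = E := by omega
  have b4 : N ^ 2 = E ^ 2 := by rw [← sq_abs, b3]
  apply hR
  linarith

/-- Integrality trichotomy. -/
lemma tri (c : ℤ) (s s' : ℝ) (hs : 0 < s) (hss : s * s' = 1) (hc : 2 * (c : ℝ) = s + s') :
    s = 1 ∨ 3.7 ≤ s ∨ 3.7 ≤ s' := by
  have hs' : 0 < s' := by
    by_contra hcon
    push Not at hcon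
    nlinarith
  have h1 : (2 : ℝ) * c = s + s' := hc
  have h2 : 2 ≤ s + s' := by nlinarith [sq_nonneg (s - s')]
  have h3 : (1 : ℝ) ≤ c := by linarith
  have h4 : 1 ≤ c := by exact_mod_cast h3
  rcases eq_or_lt_of_le h4 with h5 | h5
  · left
    have h6 : (c : ℝ) = 1 := by exact_mod_cast h5.symm
    rw [h6] at h1
    have h7 : (s - 1) ^ 2 = 0 := by
      have : s' = 2 - s := by linarith
      rw [this] at hss
      linarith [hss, show (s - 1) ^ 2 = 1 - s * (2 - s) by ring]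
    have h8 : s - 1 = 0 := by simpa using h7
    linarith
  · right
    have h6 : (2 : ℝ) ≤ c := by exact_mod_cast h5
    by_contra hcon
    push Not at hcon
    obtain ⟨ha, hb⟩ := hcon
    have h7 : 4 ≤ s + s' := by linarith
    have h8 : s ≤ 0.3 ∨ 0.3 < s := le_or_gt _ _
    nlinarith [mul_pos hs hs', mul_pos (sub_pos.mpr ha) (sub_pos.mpr hb)]

/-- Real estimates for the range `P^2 ≤ q < P^4`. -/
lemma case1 (P Pi t ti x A w : ℝ) (c : ℤ) (hP : 3.7 ≤ P) (hPP : P * Pi = 1) (ht : 1 ≤ t)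
    (htt : t * ti = 1) (htP : t ≤ P ^ 2) (hx : 2 * x = P + Pi)
    (hA : 2 * A = t * P ^ 2 + ti * Pi ^ 2) (hw : 2 * w = t + ti)
    (hc : 2 * (c : ℝ) = t * Pi + ti * P) :
    0 < 2 * A - w ∧ 4 * x ^ 2 - w ^ 2 ≠ 0 ∧ -(2 * (2 * A - w)) + 1 < 4 * x ^ 2 - w ^ 2 ∧
      4 * x ^ 2 - w ^ 2 < 2 * (2 * A - w) + 1 := by
  have hPpos : 0 < P := by linarith
  have hPi : 0 < Pi := by
    by_contra h; push Not at h; nlinarith
  have hPi1 : Pi ≤ 0.28 := by
    by_contra h; push Not at h; nlinarith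
  have htpos : 0 < t := by linarith
  have hti : 0 < ti := by
    by_contra h; push Not at h; nlinarith
  have hti1 : ti ≤ 1 := by
    by_contra h; push Not at h; nlinarith
  have hP2 : 13 ≤ P ^ 2 := by nlinarith
  have hu : t * P ^ 2 ≥ 13 * t := by nlinarith
  have hu2 : t * P ^ 2 ≥ P ^ 2 := by nlinarith
  have hu3 : t * P ^ 2 ≥ t ^ 2 := by nlinarith
  have hxx : 4 * x ^ 2 = P ^ 2 + 2 + Pi ^ 2 := by
    have : 4 * x ^ 2 = (2 * x) ^ 2 := by ring
    rw [this, hx]; nlinarith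
  have hww : 4 * w ^ 2 = t ^ 2 + 2 + ti ^ 2 := by
    have : 4 * w ^ 2 = (2 * w) ^ 2 := by ring
    rw [this, hw]; nlinarith
  have hPi2 : Pi ^ 2 ≤ 0.1 := by nlinarith
  have hPi2' : 0 < Pi ^ 2 := by positivity
  have hti2 : ti ^ 2 ≤ 1 := by nlinarith
  have hti2' : 0 < ti ^ 2 := by positivity
  have ht2 : 0 ≤ t ^ 2 := sq_nonneg t
  have hm : 0 < ti * Pi ^ 2 := by positivity
  refine ⟨by linarith, ?_, by linarith, ?_⟩
  swap
  · nlinarith [sq_nonneg (t + ti - 2)]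
  -- nonvanishing
  have hs : 0 < t * Pi := by positivity
  have hss : (t * Pi) * (ti * P) = 1 := by
    calc (t * Pi) * (ti * P) = (t * ti) * (P * Pi) := by ring
      _ = 1 := by rw [htt, hPP]; ring
  rcases tri c (t * Pi) (ti * P) hs hss hc with h | h | h
  · have ht1 : t = P := by
      calc t = t * (P * Pi) := by rw [hPP]; ring
        _ = (t * Pi) * P := by ring
        _ = P := by rw [h]; ring
    have : 0 < 4 * x ^ 2 - w ^ 2 := by
      have : t ^ 2 = P ^ 2 := by rw [ht1]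
      linarith
    exact this.ne'
  · have h1 : 3.7 * P ≤ t := by
      calc 3.7 * P ≤ (t * Pi) * P := by gcongr
        _ = t * (P * Pi) := by ring
        _ = t := by rw [hPP]; ring
    have h2 : (3.7 * P) ^ 2 ≤ t ^ 2 := pow_le_pow_left₀ (by positivity) h1 2
    have : 4 * x ^ 2 - w ^ 2 < 0 := by linarith
    exact this.ne
  · have h1 : 3.7 * t ≤ P := by
      calc 3.7 * t ≤ (ti * P) * t := by gcongr
        _ = P * (t * ti) := by ring
        _ = P := by rw [htt]; ring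
    have h2 : (3.7 * t) ^ 2 ≤ P ^ 2 := pow_le_pow_left₀ (by positivity) h1 2
    have : 0 < 4 * x ^ 2 - w ^ 2 := by linarith
    exact this.ne'

/-- Real estimates for the range `P^4 ≤ q < P^6`. -/
lemma case2 (P Pi t ti x A w v : ℝ) (c : ℤ) (hP : 3.7 ≤ P) (hPP : P * Pi = 1) (ht : 1 ≤ t)
    (htt : t * ti = 1) (htP : t ≤ P ^ 2) (hx : 2 * x = P + Pi)
    (hA : 2 * A = t * P ^ 4 + ti * Pi ^ 4) (hw : 2 * w = t * P ^ 2 + ti * Pi ^ 2)
    (hv : 2 * v = t + ti) (hc : 2 * (c : ℝ) = t * Pi + ti * P) :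
    0 < 8 * A - 4 * w - v ∧ 64 * x ^ 4 - 8 * w * v - v ^ 2 ≠ 0 ∧
      -(2 * (8 * A - 4 * w - v)) + 1 < 64 * x ^ 4 - 8 * w * v - v ^ 2 ∧
      64 * x ^ 4 - 8 * w * v - v ^ 2 < 2 * (8 * A - 4 * w - v) + 1 := by
  have hPpos : 0 < P := by linarith
  have hPi : 0 < Pi := by
    by_contra h; push Not at h; nlinarith
  have hPi1 : Pi ≤ 0.28 := by
    by_contra h; push Not at h; nlinarith
  have htpos : 0 < t := by linarith
  have hti : 0 < ti := by
    by_contra h; push Not at h; nlinarith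
  have hti1 : ti ≤ 1 := by
    by_contra h; push Not at h; nlinarith
  have hP2 : 13 ≤ P ^ 2 := by nlinarith
  have e1 : 13 * P ^ 2 ≤ P ^ 4 := by nlinarith [mul_nonneg (sub_nonneg.mpr hP2) (sq_nonneg P)]
  have e2 : P ^ 4 ≤ t * P ^ 4 := by
    have : 0 ≤ (t - 1) * P ^ 4 := mul_nonneg (by linarith) (by positivity)
    linarith
  have e3 : 13 * (t * P ^ 2) ≤ t * P ^ 4 := by
    have := mul_le_mul_of_nonneg_left e1 htpos.le
    linarith
  have e4 : 13 * t ≤ t * P ^ 2 := by nlinarith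
  have e5 : t ^ 2 * P ^ 2 ≤ t * P ^ 4 := by
    have := mul_le_mul_of_nonneg_left htP (by positivity : 0 ≤ t * P ^ 2)
    linarith [show t * P ^ 2 * t = t ^ 2 * P ^ 2 by ring,
      show t * P ^ 2 * P ^ 2 = t * P ^ 4 by ring]
  have e6 : 13 * t ^ 2 ≤ t ^ 2 * P ^ 2 := by nlinarith [mul_nonneg (sub_nonneg.mpr hP2) (sq_nonneg t)]
  have hPi2 : Pi ^ 2 ≤ 0.1 := by nlinarith
  have hPi2' : 0 < Pi ^ 2 := by positivity
  have hPi4 : Pi ^ 4 ≤ 0.1 := by
    have := mul_le_mul hPi2 hPi2 (sq_nonneg Pi) (by norm_num)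
    linarith [show Pi ^ 2 * Pi ^ 2 = Pi ^ 4 by ring]
  have hPi4' : 0 < Pi ^ 4 := by positivity
  have hti2 : ti ^ 2 ≤ 1 := by nlinarith
  have hti2' : 0 < ti ^ 2 := by positivity
  have ht2 : 0 ≤ t ^ 2 := sq_nonneg t
  have hm1 : 0 < ti * Pi ^ 2 := by positivity
  have hm1' : ti * Pi ^ 2 ≤ 0.1 := by
    have := mul_le_mul hti1 hPi2 (sq_nonneg Pi) (by norm_num)
    linarith
  have hm2 : 0 < ti * Pi ^ 4 := by positivity
  have hm3 : 0 < ti ^ 2 * Pi ^ 2 := by positivity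
  have hm3' : ti ^ 2 * Pi ^ 2 ≤ 0.1 := by
    have := mul_le_mul hti2 hPi2 (sq_nonneg Pi) (by norm_num)
    linarith
  have hPP2 : P ^ 2 * Pi ^ 2 = 1 := by rw [← mul_pow, hPP]; ring
  have htt2 : t ^ 2 * ti ^ 2 = 1 := by rw [← mul_pow, htt]; ring
  have hx4 : 64 * x ^ 4 = 4 * P ^ 4 + 16 * P ^ 2 + 24 + 16 * Pi ^ 2 + 4 * Pi ^ 4 := by
    have h1 : 64 * x ^ 4 = 4 * (2 * x) ^ 4 := by ring
    rw [h1, hx]
    linear_combination (16 * P ^ 2 + 16 * Pi ^ 2 + 24 * P * Pi + 24) * hPP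
  have hwv : 8 * w * v = 2 * (t ^ 2 * P ^ 2 + P ^ 2 + Pi ^ 2 + ti ^ 2 * Pi ^ 2) := by
    have h1 : 8 * w * v = 2 * ((2 * w) * (2 * v)) := by ring
    rw [h1, hw, hv]
    linear_combination (2 * P ^ 2 + 2 * Pi ^ 2) * htt
  have hvv : 4 * v ^ 2 = t ^ 2 + 2 + ti ^ 2 := by
    have h1 : 4 * v ^ 2 = (2 * v) ^ 2 := by ring
    rw [h1, hv]
    linear_combination 2 * htt
  refine ⟨by linarith, ?_, by linarith, by linarith⟩
  have hs : 0 < t * Pi := by positivity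
  have hss : (t * Pi) * (ti * P) = 1 := by
    calc (t * Pi) * (ti * P) = (t * ti) * (P * Pi) := by ring
      _ = 1 := by rw [htt, hPP]; ring
  rcases tri c (t * Pi) (ti * P) hs hss hc with h | h | h
  · have ht1 : t = P := by
      calc t = t * (P * Pi) := by rw [hPP]; ring
        _ = (t * Pi) * P := by ring
        _ = P := by rw [h]; ring
    have h3 : t ^ 2 * P ^ 2 = P ^ 4 := by rw [ht1]; ring
    have h4 : t ^ 2 = P ^ 2 := by rw [ht1]
    have : 0 < 64 * x ^ 4 - 8 * w * v - v ^ 2 := by linarith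
    exact this.ne'
  · have h1 : 3.7 * P ≤ t := by
      calc 3.7 * P ≤ (t * Pi) * P := by gcongr
        _ = t * (P * Pi) := by ring
        _ = t := by rw [hPP]; ring
    have h2 : (3.7 * P) ^ 2 ≤ t ^ 2 := pow_le_pow_left₀ (by positivity) h1 2
    have h3 : (3.7 * P) ^ 2 * P ^ 2 ≤ t ^ 2 * P ^ 2 :=
      mul_le_mul_of_nonneg_right h2 (by positivity)
    have : 64 * x ^ 4 - 8 * w * v - v ^ 2 < 0 := by linarith
    exact this.ne
  · have h1 : 3.7 * t ≤ P := by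
      calc 3.7 * t ≤ (ti * P) * t := by gcongr
        _ = P * (t * ti) := by ring
        _ = P := by rw [htt]; ring
    have h2 : (3.7 * t) ^ 2 ≤ P ^ 2 := pow_le_pow_left₀ (by positivity) h1 2
    have h3 : (3.7 * t) ^ 2 * P ^ 2 ≤ P ^ 2 * P ^ 2 :=
      mul_le_mul_of_nonneg_right h2 (by positivity)
    have : 0 < 64 * x ^ 4 - 8 * w * v - v ^ 2 := by linarith
    exact this.ne'

/-- Real estimates for the range `P^6 ≤ q < P^8`. -/
lemma case3 (P Pi t ti x A w v r : ℝ) (c : ℤ) (hP : 3.7 ≤ P) (hPP : P * Pi = 1) (ht : 1 ≤ t)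
    (htt : t * ti = 1) (htP : t ≤ P ^ 2) (hx : 2 * x = P + Pi)
    (hA : 2 * A = t * P ^ 6 + ti * Pi ^ 6) (hw : 2 * w = t * P ^ 4 + ti * Pi ^ 4)
    (hv : 2 * v = t * P ^ 2 + ti * Pi ^ 2) (hr : 2 * r = t + ti)
    (hc : 2 * (c : ℝ) = t * Pi + ti * P) :
    0 < 16 * A - 8 * w - 2 * v - r ∧
      512 * x ^ 6 - 576 * x ^ 4 + 320 * x ^ 2 - 20 * v ^ 2 - 4 * v * r - r ^ 2 ≠ 0 ∧
      -(2 * (16 * A - 8 * w - 2 * v - r)) + 1 <
        512 * x ^ 6 - 576 * x ^ 4 + 320 * x ^ 2 - 20 * v ^ 2 - 4 * v * r - r ^ 2 ∧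
      512 * x ^ 6 - 576 * x ^ 4 + 320 * x ^ 2 - 20 * v ^ 2 - 4 * v * r - r ^ 2 <
        2 * (16 * A - 8 * w - 2 * v - r) + 1 := by
  have hPpos : 0 < P := by linarith
  have hPi : 0 < Pi := by
    by_contra h; push Not at h; nlinarith
  have hPi1 : Pi ≤ 0.28 := by
    by_contra h; push Not at h; nlinarith
  have htpos : 0 < t := by linarith
  have hti : 0 < ti := by
    by_contra h; push Not at h; nlinarith
  have hti1 : ti ≤ 1 := by
    by_contra h; push Not at h; nlinarith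
  have hP2 : 13 ≤ P ^ 2 := by nlinarith
  have e1 : 13 * P ^ 2 ≤ P ^ 4 := by nlinarith [mul_nonneg (sub_nonneg.mpr hP2) (sq_nonneg P)]
  have e1' : 13 * P ^ 4 ≤ P ^ 6 := by
    nlinarith [mul_nonneg (sub_nonneg.mpr hP2) (sq_nonneg (P ^ 2))]
  have e2 : P ^ 6 ≤ t * P ^ 6 := by
    have : 0 ≤ (t - 1) * P ^ 6 := mul_nonneg (by linarith) (by positivity)
    linarith
  have e3 : 13 * (t * P ^ 2) ≤ t * P ^ 4 := by
    have := mul_le_mul_of_nonneg_left e1 htpos.le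
    linarith
  have e3' : 13 * (t * P ^ 4) ≤ t * P ^ 6 := by
    have := mul_le_mul_of_nonneg_left e1' htpos.le
    linarith
  have e4 : 13 * t ≤ t * P ^ 2 := by nlinarith
  have e5 : t ^ 2 * P ^ 4 ≤ t * P ^ 6 := by
    have := mul_le_mul_of_nonneg_left htP (by positivity : 0 ≤ t * P ^ 4)
    linarith [show t * P ^ 4 * t = t ^ 2 * P ^ 4 by ring,
      show t * P ^ 4 * P ^ 2 = t * P ^ 6 by ring]
  have e6 : 13 * t ^ 2 ≤ t ^ 2 * P ^ 2 := by nlinarith [mul_nonneg (sub_nonneg.mpr hP2) (sq_nonneg t)]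
  have e7 : 13 * (t ^ 2 * P ^ 2) ≤ t ^ 2 * P ^ 4 := by
    have := mul_le_mul_of_nonneg_left e1 (sq_nonneg t)
    linarith
  have hPi2 : Pi ^ 2 ≤ 0.1 := by nlinarith
  have hPi2' : 0 < Pi ^ 2 := by positivity
  have hPi4 : Pi ^ 4 ≤ 0.1 := by
    have := mul_le_mul hPi2 hPi2 (sq_nonneg Pi) (by norm_num)
    linarith [show Pi ^ 2 * Pi ^ 2 = Pi ^ 4 by ring]
  have hPi4' : 0 < Pi ^ 4 := by positivity
  have hPi6 : Pi ^ 6 ≤ 0.1 := by
    have := mul_le_mul hPi4 hPi2 (sq_nonneg Pi) (by norm_num)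
    linarith [show Pi ^ 4 * Pi ^ 2 = Pi ^ 6 by ring]
  have hPi6' : 0 < Pi ^ 6 := by positivity
  have hti2 : ti ^ 2 ≤ 1 := by nlinarith
  have hti2' : 0 < ti ^ 2 := by positivity
  have ht2 : 0 ≤ t ^ 2 := sq_nonneg t
  have hm1 : 0 < ti * Pi ^ 2 := by positivity
  have hm1' : ti * Pi ^ 2 ≤ 0.1 := by
    have := mul_le_mul hti1 hPi2 (sq_nonneg Pi) (by norm_num)
    linarith
  have hm2 : 0 < ti * Pi ^ 4 := by positivity
  have hm2' : ti * Pi ^ 4 ≤ 0.1 := by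
    have := mul_le_mul hti1 hPi4 hPi4'.le (by norm_num)
    linarith
  have hm4 : 0 < ti * Pi ^ 6 := by positivity
  have hm3 : 0 < ti ^ 2 * Pi ^ 2 := by positivity
  have hm3' : ti ^ 2 * Pi ^ 2 ≤ 0.1 := by
    have := mul_le_mul hti2 hPi2 (sq_nonneg Pi) (by norm_num)
    linarith
  have hm5 : 0 < ti ^ 2 * Pi ^ 4 := by positivity
  have hm5' : ti ^ 2 * Pi ^ 4 ≤ 0.1 := by
    have := mul_le_mul hti2 hPi4 hPi4'.le (by norm_num)
    linarith
  have hx6 : 512 * x ^ 6 - 576 * x ^ 4 + 320 * x ^ 2 = 8 * P ^ 6 + 12 * P ^ 4 + 56 * P ^ 2 + 104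
      + 56 * Pi ^ 2 + 12 * Pi ^ 4 + 8 * Pi ^ 6 := by
    have h1 : 512 * x ^ 6 - 576 * x ^ 4 + 320 * x ^ 2
        = 8 * (2 * x) ^ 6 - 36 * (2 * x) ^ 4 + 80 * (2 * x) ^ 2 := by ring
    have hP2P : P ^ 2 * Pi ^ 2 = 1 := by rw [← mul_pow, hPP]; ring
    have hP3P : P ^ 3 * Pi ^ 3 = 1 := by rw [← mul_pow, hPP]; ring
    have a1 : (P + Pi) ^ 2 = P ^ 2 + 2 + Pi ^ 2 := by linear_combination 2 * hPP
    have a2 : (P + Pi) ^ 4 = P ^ 4 + 4 * P ^ 2 + 6 + 4 * Pi ^ 2 + Pi ^ 4 := by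
      linear_combination (4 * P ^ 2 + 4 * Pi ^ 2) * hPP + 6 * hP2P
    have a3 : (P + Pi) ^ 6 = P ^ 6 + 6 * P ^ 4 + 15 * P ^ 2 + 20 + 15 * Pi ^ 2 + 6 * Pi ^ 4
        + Pi ^ 6 := by
      linear_combination (6 * P ^ 4 + 6 * Pi ^ 4) * hPP + (15 * P ^ 2 + 15 * Pi ^ 2) * hP2P
        + 20 * hP3P
    rw [h1, hx, a1, a2, a3]
    ring
  have hvv : 20 * v ^ 2 = 5 * (t ^ 2 * P ^ 4 + 2 + ti ^ 2 * Pi ^ 4) := by
    have h1 : 20 * v ^ 2 = 5 * (2 * v) ^ 2 := by ring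
    rw [h1, hv]
    linear_combination (10 * P ^ 2 * Pi ^ 2) * htt + (10 * P * Pi + 10) * hPP
  have hvr : 4 * v * r = t ^ 2 * P ^ 2 + P ^ 2 + Pi ^ 2 + ti ^ 2 * Pi ^ 2 := by
    have h1 : 4 * v * r = (2 * v) * (2 * r) := by ring
    rw [h1, hv, hr]
    linear_combination (P ^ 2 + Pi ^ 2) * htt
  have hrr : 4 * r ^ 2 = t ^ 2 + 2 + ti ^ 2 := by
    have h1 : 4 * r ^ 2 = (2 * r) ^ 2 := by ring
    rw [h1, hr]
    linear_combination 2 * htt
  refine ⟨by linarith, ?_, by linarith, by linarith⟩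
  have hs : 0 < t * Pi := by positivity
  have hss : (t * Pi) * (ti * P) = 1 := by
    calc (t * Pi) * (ti * P) = (t * ti) * (P * Pi) := by ring
      _ = 1 := by rw [htt, hPP]; ring
  rcases tri c (t * Pi) (ti * P) hs hss hc with h | h | h
  · have ht1 : t = P := by
      calc t = t * (P * Pi) := by rw [hPP]; ring
        _ = (t * Pi) * P := by ring
        _ = P := by rw [h]; ring
    have h3 : t ^ 2 * P ^ 4 = P ^ 6 := by rw [ht1]; ring
    have h4 : t ^ 2 * P ^ 2 = P ^ 4 := by rw [ht1]; ring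
    have h5 : t ^ 2 = P ^ 2 := by rw [ht1]
    have : 0 < 512 * x ^ 6 - 576 * x ^ 4 + 320 * x ^ 2 - 20 * v ^ 2 - 4 * v * r - r ^ 2 := by
      linarith
    exact this.ne'
  · have h1 : 3.7 * P ≤ t := by
      calc 3.7 * P ≤ (t * Pi) * P := by gcongr
        _ = t * (P * Pi) := by ring
        _ = t := by rw [hPP]; ring
    have h2 : (3.7 * P) ^ 2 ≤ t ^ 2 := pow_le_pow_left₀ (by positivity) h1 2
    have h3 : (3.7 * P) ^ 2 * P ^ 4 ≤ t ^ 2 * P ^ 4 :=
      mul_le_mul_of_nonneg_right h2 (by positivity)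
    have : 512 * x ^ 6 - 576 * x ^ 4 + 320 * x ^ 2 - 20 * v ^ 2 - 4 * v * r - r ^ 2 < 0 := by
      linarith
    exact this.ne
  · have h1 : 3.7 * t ≤ P := by
      calc 3.7 * t ≤ (ti * P) * t := by gcongr
        _ = P * (t * ti) := by ring
        _ = P := by rw [htt]; ring
    have h2 : (3.7 * t) ^ 2 ≤ P ^ 2 := pow_le_pow_left₀ (by positivity) h1 2
    have h3 : (3.7 * t) ^ 2 * P ^ 4 ≤ P ^ 2 * P ^ 4 :=
      mul_le_mul_of_nonneg_right h2 (by positivity)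
    have : 0 < 512 * x ^ 6 - 576 * x ^ 4 + 320 * x ^ 2 - 20 * v ^ 2 - 4 * v * r - r ^ 2 := by
      linarith
    exact this.ne'

lemma lt_one_of (a b : ℝ) (ha : 1 < a) (hab : a * b = 1) : b < 1 := by
  by_contra h
  push Not at h
  nlinarith

lemma pos_of (a b : ℝ) (ha : 0 < a) (hab : a * b = 1) : 0 < b := by
  by_contra h
  push Not at h
  nlinarith

lemma pos_left (a b : ℝ) (hb : 0 < b) (hab : 0 < a * b) : 0 < a := by
  by_contra h
  push Not at h
  nlinarith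

/-- The core statement, in terms of the auxiliary integers `A`, `B`. -/
lemma core (x A B z : ℤ) (hx : 2 ≤ x) (hB : 2 ≤ B) (hAB : B < A)
    (hrel : A ^ 2 - 2 * A * B * x + B ^ 2 + x ^ 2 - 1 = 0) (hz : z ^ 2 = A ^ 2 - B ^ 2 + 1)
    (hy : x < 2 * A * B - x) : x ^ 15 < 2 * A * B - x := by
  by_contra hcon
  push Not at hcon
  -- real parameters
  have hxR : (2 : ℝ) ≤ (x : ℝ) := by exact_mod_cast hx
  have hBR : (2 : ℝ) ≤ (B : ℝ) := by exact_mod_cast hB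
  have hABR : (B : ℝ) < (A : ℝ) := by exact_mod_cast hAB
  have hrelR : (A : ℝ) ^ 2 - 2 * A * B * x + B ^ 2 + x ^ 2 - 1 = 0 := by exact_mod_cast hrel
  have hyR : (x : ℝ) < 2 * A * B - x := by exact_mod_cast hy
  have hconR : 2 * (A : ℝ) * B - x ≤ (x : ℝ) ^ 15 := by exact_mod_cast hcon
  obtain ⟨s, hs0, hs2⟩ : ∃ s : ℝ, 1.7 ≤ s ∧ s ^ 2 = (x : ℝ) ^ 2 - 1 := by
    refine ⟨√((x : ℝ) ^ 2 - 1), ?_, Real.sq_sqrt (by nlinarith)⟩
    apply Real.le_sqrt_of_sq_le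
    nlinarith
  have hspos : 0 < s := by linarith
  obtain ⟨P, hPdef⟩ : ∃ P : ℝ, P = x + s := ⟨_, rfl⟩
  obtain ⟨Pi, hPidef⟩ : ∃ Pi : ℝ, Pi = x - s := ⟨_, rfl⟩
  have hP : 3.7 ≤ P := by rw [hPdef]; linarith
  have hPP : P * Pi = 1 := by rw [hPdef, hPidef]; linear_combination -hs2
  have hPX : 2 * (x : ℝ) = P + Pi := by rw [hPdef, hPidef]; ring
  have hPs : P - Pi = 2 * s := by rw [hPdef, hPidef]; ring
  have hPpos : 0 < P := by linarith
  have hPi : 0 < Pi := pos_of P Pi hPpos hPP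
  have hP13 : 13 ≤ P ^ 2 := by
    have := pow_le_pow_left₀ (by norm_num) hP 2
    norm_num at this
    linarith
  have hPi1 : 13 * Pi ≤ P := by
    have := mul_le_mul_of_nonneg_right hP13 hPi.le
    linarith [show P ^ 2 * Pi = P * (P * Pi) by ring, show P * (P * Pi) = P by rw [hPP]; ring]
  have hPi1' : Pi < 1 := lt_one_of P Pi (by linarith) hPP
  obtain ⟨q, hqdef⟩ : ∃ q : ℝ, q = ((A : ℝ) * P - B) / s := ⟨_, rfl⟩
  obtain ⟨q', hq'def⟩ : ∃ q' : ℝ, q' = ((B : ℝ) - A * Pi) / s := ⟨_, rfl⟩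
  have hqs : q * s = (A : ℝ) * P - B := by rw [hqdef]; field_simp
  have hq's : q' * s = (B : ℝ) - A * Pi := by rw [hq'def]; field_simp
  have f1 : q + q' = 2 * A := by
    have : (q + q') * s = 2 * A * s := by linear_combination hqs + hq's + (A : ℝ) * hPs
    exact mul_right_cancel₀ hspos.ne' this
  have f2 : q * Pi + q' * P = 2 * B := by
    have : (q * Pi + q' * P) * s = 2 * B * s := by
      linear_combination Pi * hqs + P * hq's + (B : ℝ) * hPs
    exact mul_right_cancel₀ hspos.ne' this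
  have f3 : q * q' = 1 := by
    have : (q * q') * s ^ 2 = 1 * s ^ 2 := by
      have h1 : (q * q') * s ^ 2 = (q * s) * (q' * s) := by ring
      rw [h1, hqs, hq's, hs2]
      linear_combination -hrelR - (A : ℝ) * B * hPX + (A : ℝ) ^ 2 * (-hPP)
    exact mul_right_cancel₀ (by positivity) this
  have hq : 0 < q := by
    rw [hqdef]
    apply div_pos _ hspos
    have h1 : (A : ℝ) * 1 ≤ A * P := mul_le_mul_of_nonneg_left (by linarith) (by linarith)
    linarith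
  have hq' : 0 < q' := pos_of q q' hq f3
  -- `q > P`
  have g0 : q' * P < q := by
    have h1 : (q - q' * P) * (1 - Pi) = 2 * A - 2 * B := by
      linear_combination f1 - f2 + q' * hPP
    have h2 : 0 < (q - q' * P) * (1 - Pi) := by rw [h1]; linarith
    have h3 : 0 < q - q' * P := pos_left _ _ (by linarith) h2
    linarith
  have g1 : 1 < q ^ 2 * Pi := by
    have h1 : q * (q' * P) * Pi < q * q * Pi :=
      mul_lt_mul_of_pos_right (mul_lt_mul_of_pos_left g0 hq) hPi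
    have h2 : q * (q' * P) * Pi = 1 := by
      calc q * (q' * P) * Pi = (q * q') * (P * Pi) := by ring
        _ = 1 := by rw [f3, hPP]; ring
    calc 1 = q * (q' * P) * Pi := h2.symm
      _ < q * q * Pi := h1
      _ = q ^ 2 * Pi := by ring
  have g2 : 2 * (2 * (A : ℝ) * B - x) = q ^ 2 * Pi + q' ^ 2 * P := by
    have h1 : 4 * (A : ℝ) * B = (q + q') * (q * Pi + q' * P) := by rw [f1, f2]; ring
    linear_combination h1 + (P + Pi) * f3 - hPX
  have g3 : q ^ 2 * Pi * (q' ^ 2 * P) = 1 := by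
    calc q ^ 2 * Pi * (q' ^ 2 * P) = (q * q') ^ 2 * (P * Pi) := by ring
      _ = 1 := by rw [f3, hPP]; ring
  have g4 : P < q ^ 2 * Pi := by
    have h1 : (q ^ 2 * Pi - P) * (1 - q' ^ 2 * P * Pi) = q ^ 2 * Pi + q' ^ 2 * P - P - Pi := by
      linear_combination (-Pi) * g3 + (q' ^ 2 * P) * hPP
    have h2 : 0 < (q ^ 2 * Pi - P) * (1 - q' ^ 2 * P * Pi) := by
      rw [h1]; linarith
    have h3 : q' ^ 2 * P < 1 := lt_one_of _ _ g1 g3
    have h4 : 0 < 1 - q' ^ 2 * P * Pi := by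
      have h5 : q' ^ 2 * P * Pi < 1 * Pi := mul_lt_mul_of_pos_right h3 hPi
      linarith
    have h5 : 0 < q ^ 2 * Pi - P := pos_left _ _ h4 h2
    linarith
  have g5 : P < q := by
    have h1 : P * P < q ^ 2 * Pi * P := mul_lt_mul_of_pos_right g4 hPpos
    have h2 : q ^ 2 * Pi * P = q ^ 2 := by
      calc q ^ 2 * Pi * P = q ^ 2 * (P * Pi) := by ring
        _ = q ^ 2 := by rw [hPP]; ring
    have h3 : P ^ 2 < q ^ 2 := by
      have h4 : P ^ 2 = P * P := by ring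
      linarith
    exact lt_of_pow_lt_pow_left₀ 2 hq.le h3
  -- `q < P ^ 8`
  have g6 : q < P ^ 8 := by
    have h1 : q ^ 2 * Pi < 2 * (x : ℝ) ^ 15 := by
      have : 0 < q' ^ 2 * P := by positivity
      linarith
    have h2 : (x : ℝ) ≤ 7 / 13 * P := by linarith
    have h3 : (x : ℝ) ^ 15 ≤ (7 / 13 * P) ^ 15 := pow_le_pow_left₀ (by linarith) h2 15
    have h4 : (7 / 13 * P) ^ 15 = (7 / 13 : ℝ) ^ 15 * P ^ 15 := by ring
    have h5 : 2 * (7 / 13 : ℝ) ^ 15 < 1 := by norm_num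
    have h6 : 2 * (x : ℝ) ^ 15 < P ^ 15 := by
      have h7 : 0 < P ^ 15 := by positivity
      have h8 := mul_lt_mul_of_pos_right h5 h7
      linarith
    have h7 : q ^ 2 < P ^ 16 := by
      have h8 : q ^ 2 * Pi * P < P ^ 15 * P := mul_lt_mul_of_pos_right (by linarith) hPpos
      have h9 : q ^ 2 * Pi * P = q ^ 2 := by
        calc q ^ 2 * Pi * P = q ^ 2 * (P * Pi) := by ring
          _ = q ^ 2 := by rw [hPP]; ring
      have h10 : P ^ 15 * P = P ^ 16 := by ring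
      linarith
    have h8 : q ^ 2 < (P ^ 8) ^ 2 := by
      have : (P ^ 8) ^ 2 = P ^ 16 := by ring
      linarith
    exact lt_of_pow_lt_pow_left₀ 2 (by positivity) h8
  -- the recurrence sequence
  obtain ⟨w, hw⟩ : ∃ w : ℤ, w = 2 * x * B - A := ⟨_, rfl⟩
  obtain ⟨c3, hc3⟩ : ∃ c3 : ℤ, c3 = 2 * x * w - B := ⟨_, rfl⟩
  obtain ⟨v, hv⟩ : ∃ v : ℤ, v = 2 * x * c3 - w := ⟨_, rfl⟩
  obtain ⟨c5, hc5⟩ : ∃ c5 : ℤ, c5 = 2 * x * v - c3 := ⟨_, rfl⟩
  obtain ⟨r, hr⟩ : ∃ r : ℤ, r = 2 * x * c5 - v := ⟨_, rfl⟩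
  obtain ⟨c7, hc7⟩ : ∃ c7 : ℤ, c7 = 2 * x * r - c5 := ⟨_, rfl⟩
  have step : ∀ (j : ℕ) (a b c : ℝ), 2 * a = q * Pi ^ j + q' * P ^ j →
      2 * b = q * Pi ^ (j + 1) + q' * P ^ (j + 1) → c = 2 * x * b - a →
      2 * c = q * Pi ^ (j + 2) + q' * P ^ (j + 2) := by
    intro j a b c ha hb hc
    have h1 : 2 * c = 2 * x * (2 * b) - 2 * a := by rw [hc]; ring
    rw [h1, ha, hb, hPX]
    linear_combination (q * Pi ^ j + q' * P ^ j) * hPP
  have k0 : 2 * (A : ℝ) = q * Pi ^ 0 + q' * P ^ 0 := by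
    rw [pow_zero, pow_zero]; linarith
  have k1 : 2 * (B : ℝ) = q * Pi ^ (0 + 1) + q' * P ^ (0 + 1) := by
    rw [zero_add, pow_one, pow_one]; linarith
  have k2 := step 0 A B w k0 k1 (by rw [hw]; push_cast; ring)
  have k3 := step 1 B w c3 k1 k2 (by rw [hc3]; push_cast; ring)
  have k4 := step 2 w c3 v k2 k3 (by rw [hv]; push_cast; ring)
  have k5 := step 3 c3 v c5 k3 k4 (by rw [hc5]; push_cast; ring)
  have k6 := step 4 v c5 r k4 k5 (by rw [hr]; push_cast; ring)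
  have k7 := step 5 c5 r c7 k5 k6 (by rw [hc7]; push_cast; ring)
  norm_num at k0 k1 k2 k3 k4 k5 k6 k7
  have canc : ∀ j : ℕ, q * Pi ^ j * P ^ j = q ∧ q' * P ^ j * Pi ^ j = q' := by
    intro j
    constructor
    · rw [mul_assoc, ← mul_pow, mul_comm Pi P, hPP]; ring
    · rw [mul_assoc, ← mul_pow, hPP]; ring
  have tt : ∀ j : ℕ, (q * Pi ^ j) * (q' * P ^ j) = 1 := by
    intro j
    calc (q * Pi ^ j) * (q' * P ^ j) = (q * q') * (P * Pi) ^ j := by rw [mul_pow]; ring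
      _ = 1 := by rw [f3, hPP]; ring
  have tge : ∀ j : ℕ, P ^ j ≤ q → 1 ≤ q * Pi ^ j := by
    intro j h
    have h1 := mul_le_mul_of_nonneg_right h (pow_nonneg hPi.le j)
    rwa [← mul_pow, hPP, one_pow] at h1
  have tle : ∀ j : ℕ, q < P ^ (j + 2) → q * Pi ^ j ≤ P ^ 2 := by
    intro j h
    have h1 := mul_le_mul_of_nonneg_right h.le (pow_nonneg hPi.le j)
    have h2 : P ^ (j + 2) * Pi ^ j = P ^ 2 := by
      calc P ^ (j + 2) * Pi ^ j = P ^ 2 * (P * Pi) ^ j := by rw [mul_pow]; ring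
        _ = P ^ 2 := by rw [hPP]; ring
    linarith
  rcases lt_or_ge q (P ^ 2) with c0 | c0
  · -- range 0
    have h1 : q * Pi ^ 2 < 1 := by
      have h1 := mul_lt_mul_of_pos_right c0 (pow_pos hPi 2)
      rwa [← mul_pow, hPP, one_pow] at h1
    have h2 : q' * P < 1 := by
      have := mul_lt_mul_of_pos_left g5 hq'
      linarith [show q' * q = q * q' by ring]
    have h3 : 4 * (B : ℝ) ^ 2 = q * (q * Pi ^ 2) + 2 + (q' * P) ^ 2 := by
      have : 4 * (B : ℝ) ^ 2 = (2 * B) ^ 2 := by ring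
      rw [this, ← f2]
      linear_combination 2 * P * Pi * f3 + 2 * hPP
    have h4 : (q' * P) ^ 2 < 1 := by
      have h5 : 0 < q' * P := by positivity
      calc (q' * P) ^ 2 = (q' * P) * (q' * P) := by ring
        _ < 1 * 1 := mul_lt_mul'' h2 h2 h5.le h5.le
        _ = 1 := by ring
    have h5 : q * (q * Pi ^ 2) < q := by
      calc q * (q * Pi ^ 2) < q * 1 := mul_lt_mul_of_pos_left h1 hq
        _ = q := by ring
    have h6 : (B : ℝ) ^ 2 < 2 * A := by linarith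
    have h7 : B ^ 2 < 2 * A := by exact_mod_cast h6
    have h8 : 4 ≤ B ^ 2 := by
      have := pow_le_pow_left₀ (by norm_num) hB 2
      norm_num at this
      linarith
    exact nosq z A (1 - B ^ 2) (by linarith) (by linarith) (by linarith) (by linarith)
      (by linarith)
  rcases lt_or_ge q (P ^ 4) with c1 | c1
  · -- range 1
    obtain ⟨a1, a2, a3, a4⟩ := case1 P Pi (q * Pi ^ 2) (q' * P ^ 2) x A w c3 hP hPP
      (tge 2 c0) (tt 2) (tle 2 c1) hPX (by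
        rw [(canc 2).1, (canc 2).2]; linarith) k2 (by
        rw [k3]; ring)
    refine nosq (2 * z) (2 * A - w) (4 * x ^ 2 - w ^ 2) (by exact_mod_cast a1) ?_
      (by exact_mod_cast a2) (by exact_mod_cast a3) (by exact_mod_cast a4)
    rw [hw]
    linear_combination 4 * hz - 4 * hrel
  rcases lt_or_ge q (P ^ 6) with c2 | c2
  · -- range 2
    obtain ⟨a1, a2, a3, a4⟩ := case2 P Pi (q * Pi ^ 4) (q' * P ^ 4) x A w v c5 hP hPP
      (tge 4 c1) (tt 4) (tle 4 c2) hPX (by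
        rw [(canc 4).1, (canc 4).2]; linarith) (by
        rw [k2]
        have e1 : q * Pi ^ 4 * P ^ 2 = q * Pi ^ 2 * (Pi ^ 2 * P ^ 2) := by ring
        have e2 : q' * P ^ 4 * Pi ^ 2 = q' * P ^ 2 * (P ^ 2 * Pi ^ 2) := by ring
        have e3 : P ^ 2 * Pi ^ 2 = 1 := by rw [← mul_pow, hPP]; ring
        rw [e1, e2, mul_comm (Pi ^ 2) (P ^ 2), e3]; ring) k4 (by
        rw [k5]
        ring)
    refine nosq (8 * z) (8 * A - 4 * w - v) (64 * x ^ 4 - 8 * w * v - v ^ 2)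
      (by exact_mod_cast a1) ?_ (by exact_mod_cast a2) (by exact_mod_cast a3)
      (by exact_mod_cast a4)
    rw [hv, hc3, hw]
    linear_combination 64 * hz - (64 * x ^ 2 + 64) * hrel
  · -- range 3
    obtain ⟨a1, a2, a3, a4⟩ := case3 P Pi (q * Pi ^ 6) (q' * P ^ 6) x A w v r c7 hP hPP
      (tge 6 c2) (tt 6) (tle 6 g6) hPX (by
        rw [(canc 6).1, (canc 6).2]; linarith) (by
        rw [k2]
        have e1 : q * Pi ^ 6 * P ^ 4 = q * Pi ^ 2 * (P ^ 4 * Pi ^ 4) := by ring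
        have e2 : q' * P ^ 6 * Pi ^ 4 = q' * P ^ 2 * (P ^ 4 * Pi ^ 4) := by ring
        have e3 : P ^ 4 * Pi ^ 4 = 1 := by rw [← mul_pow, hPP]; ring
        rw [e1, e2, e3]; ring) (by
        rw [k4]
        have e1 : q * Pi ^ 6 * P ^ 2 = q * Pi ^ 4 * (P ^ 2 * Pi ^ 2) := by ring
        have e2 : q' * P ^ 6 * Pi ^ 2 = q' * P ^ 4 * (P ^ 2 * Pi ^ 2) := by ring
        have e3 : P ^ 2 * Pi ^ 2 = 1 := by rw [← mul_pow, hPP]; ring
        rw [e1, e2, e3]; ring) k6 (by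
        rw [k7]
        ring)
    refine nosq (16 * z) (16 * A - 8 * w - 2 * v - r)
      (512 * x ^ 6 - 576 * x ^ 4 + 320 * x ^ 2 - 20 * v ^ 2 - 4 * v * r - r ^ 2)
      (by exact_mod_cast a1) ?_ (by exact_mod_cast a2) (by exact_mod_cast a3)
      (by exact_mod_cast a4)
    rw [hr, hc5, hv, hc3, hw]
    linear_combination 256 * hz + (-512 * x ^ 4 + 64 * x ^ 2 - 256) * hrel

/-- Let `1 < x < y` and `z` be integers with `(x^2-1)(y^2-1) = (z^2-1)^2`, and suppose that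
`(x+1)(y+1)` is a perfect square. Then `y > x^15`. -/
theorem plusClass (x y z : ℤ) (hx : 1 < x) (hxy : x < y)
    (h : (x ^ 2 - 1) * (y ^ 2 - 1) = (z ^ 2 - 1) ^ 2) (hs : IsSquare ((x + 1) * (y + 1))) :
    x ^ 15 < y := by
  obtain ⟨r0, hr0⟩ := hs
  obtain ⟨r, hr, hrpos⟩ : ∃ r : ℤ, (x + 1) * (y + 1) = r ^ 2 ∧ 0 < r := by
    refine ⟨|r0|, ?_, ?_⟩
    · rw [sq_abs, hr0]; ring
    · have h1 : 0 < (x + 1) * (y + 1) := by
        apply mul_pos <;> linarith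
      rw [hr0] at h1
      have h2 : r0 ≠ 0 := by
        rintro rfl
        simp at h1
      exact abs_pos.mpr h2
  have h1 : (z ^ 2 - 1) ^ 2 = r ^ 2 * ((x - 1) * (y - 1)) := by
    rw [← h, ← hr]; ring
  have h2 : r ∣ z ^ 2 - 1 := by
    have : r ^ 2 ∣ (z ^ 2 - 1) ^ 2 := ⟨_, h1⟩
    exact (Int.pow_dvd_pow_iff (by norm_num)).mp this
  obtain ⟨t, ht⟩ := h2
  have h3 : (x - 1) * (y - 1) = t ^ 2 := by
    have h4 : r ^ 2 * ((x - 1) * (y - 1)) = r ^ 2 * t ^ 2 := by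
      rw [← h1, ht]; ring
    exact mul_left_cancel₀ (pow_ne_zero 2 hrpos.ne') h4
  have hbig : 1 < (z ^ 2 - 1) ^ 2 := by
    rw [← h]
    have a1 : 3 ≤ x ^ 2 - 1 := by nlinarith
    have a2 : 3 ≤ y ^ 2 - 1 := by nlinarith
    nlinarith
  have hzpos : 0 < z ^ 2 - 1 := by
    by_contra hcon
    push Not at hcon
    have : 0 ≤ z ^ 2 := sq_nonneg z
    nlinarith
  have htpos : 0 < t := by
    by_contra hcon
    push Not at hcon
    have : r * t ≤ 0 := mul_nonpos_of_nonneg_of_nonpos hrpos.le hcon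
    linarith
  obtain ⟨A, hA⟩ : ∃ A : ℤ, r + t = 2 * A := by
    have h4 : r ^ 2 + t ^ 2 = 2 * (x * y + 1) := by rw [← hr, ← h3]; ring
    have h5 : Even (r ^ 2 + t ^ 2) := ⟨x * y + 1, by rw [h4]; ring⟩
    have h6 : Even (r + t) := by
      have : (r ^ 2 + t ^ 2) + 2 * (r * t) = (r + t) ^ 2 := by ring
      have h7 : Even ((r + t) ^ 2) := by
        rw [← this]
        exact h5.add (even_two_mul _)
      exact (Int.even_pow' (by norm_num)).mp h7
    obtain ⟨A, hA⟩ := h6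
    exact ⟨A, by rw [hA]; ring⟩
  obtain ⟨B, hB⟩ : ∃ B : ℤ, B = A - t := ⟨_, rfl⟩
  have hrAB : r = A + B := by linarith
  have htAB : t = A - B := by linarith
  have hsum : x + y = 2 * A * B := by
    have : 2 * (x + y) = r ^ 2 - t ^ 2 := by rw [← hr, ← h3]; ring
    rw [hrAB, htAB] at this
    linarith [show (A + B) ^ 2 - (A - B) ^ 2 = 4 * A * B by ring]
  have hprod : x * y = A ^ 2 + B ^ 2 - 1 := by
    have : 2 * (x * y) + 2 = r ^ 2 + t ^ 2 := by rw [← hr, ← h3]; ring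
    rw [hrAB, htAB] at this
    linarith [show (A + B) ^ 2 + (A - B) ^ 2 = 2 * A ^ 2 + 2 * B ^ 2 by ring]
  have hz : z ^ 2 = A ^ 2 - B ^ 2 + 1 := by
    have : z ^ 2 = r * t + 1 := by linarith
    rw [this, hrAB, htAB]; ring
  have hABpos : 0 < A := by linarith
  have hB1 : 1 ≤ B := by
    by_contra hcon
    push Not at hcon
    have : A * B ≤ 0 := mul_nonpos_of_nonneg_of_nonpos hABpos.le (by linarith)
    linarith
  have hB2 : 2 ≤ B := by
    rcases eq_or_lt_of_le hB1 with h4 | h4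
    · exfalso
      rw [← h4] at hsum hprod
      have h5 : y = 2 * A - x := by linarith
      rw [h5] at hprod
      have h6 : (x - A) ^ 2 = 0 := by linarith [show (x - A) ^ 2 = A ^ 2 - x * (2 * A - x) by ring]
      have h7 : x - A = 0 := by simpa using h6
      linarith
    · linarith
  have hfin := core x A B z (by linarith) hB2 (by linarith)
    (by
      have h5 : 2 * A * B * x = (x + y) * x := by rw [hsum]
      have h6 : A ^ 2 + B ^ 2 = x * y + 1 := by linarith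
      linear_combination h6 - h5)
    hz (by linarith)
  linarith

end Pool.Agent.H69.Runge
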