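import Mathlib
import Pool.Agent.H69.RungePlus

set_option autoImplicit false

namespace Pool.Agent.H69.Runge

lemma caseM1 (P Pi t ti x A w : ℝ) (hP : 3.7 ≤ P) (hPP : P * Pi = 1) (ht : 1 ≤ t)
    (htt : t * ti = 1) (htP : t ≤ P ^ 2) (hx : 2 * x = P + Pi)
    (hA : 2 * A = t * P ^ 2 - ti * Pi ^ 2) (hw : 2 * w = t - ti) :
    0 < 2 * A - w ∧ -4 * x ^ 2 + 8 - w ^ 2 < 0 ∧
      -(2 * (2 * A - w)) + 1 < -4 * x ^ 2 + 8 - w ^ 2 := by
  have hPpos : 0 < P := by linarith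
  have hPi : 0 < Pi := pos_of P Pi hPpos hPP
  have hPi1 : Pi ≤ 0.28 := by
    by_contra h; push Not at h; nlinarith
  have htpos : 0 < t := by linarith
  have hti : 0 < ti := pos_of t ti htpos htt
  have hti1 : ti ≤ 1 := by
    by_contra h; push Not at h; nlinarith
  have hP2 : 13 ≤ P ^ 2 := by nlinarith
  have hu : t * P ^ 2 ≥ 13 * t := by nlinarith
  have hu2 : t * P ^ 2 ≥ P ^ 2 := by nlinarith
  have hu3 : t * P ^ 2 ≥ t ^ 2 := by nlinarith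
  have hxx : 4 * x ^ 2 = P ^ 2 + 2 + Pi ^ 2 := by
    have : 4 * x ^ 2 = (2 * x) ^ 2 := by ring
    rw [this, hx]; linear_combination 2 * hPP
  have hww : 4 * w ^ 2 = t ^ 2 - 2 + ti ^ 2 := by
    have : 4 * w ^ 2 = (2 * w) ^ 2 := by ring
    rw [this, hw]; linear_combination -2 * htt
  have hPi2 : Pi ^ 2 ≤ 0.1 := by nlinarith
  have hPi2' : 0 < Pi ^ 2 := by positivity
  have hti2 : ti ^ 2 ≤ 1 := by nlinarith
  have hm : 0 < ti * Pi ^ 2 := by positivity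
  have hm' : ti * Pi ^ 2 ≤ 0.1 := by
    have := mul_le_mul hti1 hPi2 (sq_nonneg Pi) (by norm_num)
    linarith
  have hw2 : 0 ≤ w ^ 2 := sq_nonneg w
  exact ⟨by linarith, by linarith, by linarith⟩

lemma caseM2 (P Pi t ti x A w v : ℝ) (hP : 3.7 ≤ P) (hPP : P * Pi = 1) (ht : 1 ≤ t)
    (htt : t * ti = 1) (htP : t ≤ P ^ 2) (hx : 2 * x = P + Pi)
    (hA : 2 * A = t * P ^ 4 - ti * Pi ^ 4) (hw : 2 * w = t * P ^ 2 - ti * Pi ^ 2)
    (hv : 2 * v = t - ti) :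
    0 < 8 * A - 4 * w - v ∧ -64 * x ^ 4 + 128 - 8 * w * v - v ^ 2 < 0 ∧
      -(2 * (8 * A - 4 * w - v)) + 1 < -64 * x ^ 4 + 128 - 8 * w * v - v ^ 2 := by
  have hPpos : 0 < P := by linarith
  have hPi : 0 < Pi := pos_of P Pi hPpos hPP
  have hPi1 : Pi ≤ 0.28 := by
    by_contra h; push Not at h; nlinarith
  have htpos : 0 < t := by linarith
  have hti : 0 < ti := pos_of t ti htpos htt
  have hti1 : ti ≤ 1 := by
    by_contra h; push Not at h; nlinarith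
  have hP2 : 13 ≤ P ^ 2 := by nlinarith
  have e1 : 13 * P ^ 2 ≤ P ^ 4 := by nlinarith [mul_nonneg (sub_nonneg.mpr hP2) (sq_nonneg P)]
  have e2 : P ^ 4 ≤ t * P ^ 4 := by
    have : 0 ≤ (t - 1) * P ^ 4 := mul_nonneg (by linarith) (by positivity)
    linarith
  have e3 : 13 * (t * P ^ 2) ≤ t * P ^ 4 := by
    have := mul_le_mul_of_nonneg_left e1 htpos.le
    linarith
  have e4 : 13 * t ≤ t * P ^ 2 := by nlinarith
  have e5 : t ^ 2 * P ^ 2 ≤ t * P ^ 4 := by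
    have := mul_le_mul_of_nonneg_left htP (by positivity : 0 ≤ t * P ^ 2)
    linarith [show t * P ^ 2 * t = t ^ 2 * P ^ 2 by ring,
      show t * P ^ 2 * P ^ 2 = t * P ^ 4 by ring]
  have e6 : 13 * t ^ 2 ≤ t ^ 2 * P ^ 2 := by
    nlinarith [mul_nonneg (sub_nonneg.mpr hP2) (sq_nonneg t)]
  have hPi2 : Pi ^ 2 ≤ 0.1 := by nlinarith
  have hPi2' : 0 < Pi ^ 2 := by positivity
  have hPi4 : Pi ^ 4 ≤ 0.1 := by
    have := mul_le_mul hPi2 hPi2 (sq_nonneg Pi) (by norm_num)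
    linarith [show Pi ^ 2 * Pi ^ 2 = Pi ^ 4 by ring]
  have hPi4' : 0 < Pi ^ 4 := by positivity
  have hti2 : ti ^ 2 ≤ 1 := by nlinarith
  have hti2' : 0 < ti ^ 2 := by positivity
  have ht2 : 0 ≤ t ^ 2 := sq_nonneg t
  have hm1 : 0 < ti * Pi ^ 2 := by positivity
  have hm1' : ti * Pi ^ 2 ≤ 0.1 := by
    have := mul_le_mul hti1 hPi2 (sq_nonneg Pi) (by norm_num)
    linarith
  have hm2 : 0 < ti * Pi ^ 4 := by positivity
  have hm2' : ti * Pi ^ 4 ≤ 0.1 := by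
    have := mul_le_mul hti1 hPi4 hPi4'.le (by norm_num)
    linarith
  have hm3 : 0 < ti ^ 2 * Pi ^ 2 := by positivity
  have hm3' : ti ^ 2 * Pi ^ 2 ≤ 0.1 := by
    have := mul_le_mul hti2 hPi2 (sq_nonneg Pi) (by norm_num)
    linarith
  have hPP2 : P ^ 2 * Pi ^ 2 = 1 := by rw [← mul_pow, hPP]; ring
  have hx4 : 64 * x ^ 4 = 4 * P ^ 4 + 16 * P ^ 2 + 24 + 16 * Pi ^ 2 + 4 * Pi ^ 4 := by
    have h1 : 64 * x ^ 4 = 4 * (2 * x) ^ 4 := by ring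
    rw [h1, hx]
    linear_combination (16 * P ^ 2 + 16 * Pi ^ 2 + 24 * P * Pi + 24) * hPP
  have hwv : 8 * w * v = 2 * (t ^ 2 * P ^ 2 - P ^ 2 - Pi ^ 2 + ti ^ 2 * Pi ^ 2) := by
    have h1 : 8 * w * v = 2 * ((2 * w) * (2 * v)) := by ring
    rw [h1, hw, hv]
    linear_combination (-2 * P ^ 2 - 2 * Pi ^ 2) * htt
  have hvv : 4 * v ^ 2 = t ^ 2 - 2 + ti ^ 2 := by
    have h1 : 4 * v ^ 2 = (2 * v) ^ 2 := by ring
    rw [h1, hv]
    linear_combination -2 * htt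
  have hv2 : 0 ≤ v ^ 2 := sq_nonneg v
  have hv0 : 0 ≤ v := by linarith
  have hw0 : 0 ≤ w := by linarith
  have hwv0 : 0 ≤ 8 * w * v := by positivity
  exact ⟨by linarith, by linarith, by linarith⟩

lemma caseM3 (P Pi t ti x A w v r : ℝ) (hP : 3.7 ≤ P) (hPP : P * Pi = 1) (ht : 1 ≤ t)
    (htt : t * ti = 1) (htP : t ≤ P ^ 2) (hx : 2 * x = P + Pi)
    (hA : 2 * A = t * P ^ 6 - ti * Pi ^ 6) (hw : 2 * w = t * P ^ 4 - ti * Pi ^ 4)
    (hv : 2 * v = t * P ^ 2 - ti * Pi ^ 2) (hr : 2 * r = t - ti) :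
    0 < 16 * A - 8 * w - 2 * v - r ∧
      -(512 * x ^ 6 - 576 * x ^ 4 + 320 * x ^ 2) + 512 - 20 * v ^ 2 - 4 * v * r - r ^ 2 < 0 ∧
      -(2 * (16 * A - 8 * w - 2 * v - r)) + 1 <
        -(512 * x ^ 6 - 576 * x ^ 4 + 320 * x ^ 2) + 512 - 20 * v ^ 2 - 4 * v * r - r ^ 2 := by
  have hPpos : 0 < P := by linarith
  have hPi : 0 < Pi := pos_of P Pi hPpos hPP
  have hPi1 : Pi ≤ 0.28 := by
    by_contra h; push Not at h; nlinarith
  have htpos : 0 < t := by linarith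
  have hti : 0 < ti := pos_of t ti htpos htt
  have hti1 : ti ≤ 1 := by
    by_contra h; push Not at h; nlinarith
  have hP2 : 13 ≤ P ^ 2 := by nlinarith
  have e1 : 13 * P ^ 2 ≤ P ^ 4 := by nlinarith [mul_nonneg (sub_nonneg.mpr hP2) (sq_nonneg P)]
  have e1' : 13 * P ^ 4 ≤ P ^ 6 := by
    nlinarith [mul_nonneg (sub_nonneg.mpr hP2) (sq_nonneg (P ^ 2))]
  have e2 : P ^ 6 ≤ t * P ^ 6 := by
    have : 0 ≤ (t - 1) * P ^ 6 := mul_nonneg (by linarith) (by positivity)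
    linarith
  have e3 : 13 * (t * P ^ 2) ≤ t * P ^ 4 := by
    have := mul_le_mul_of_nonneg_left e1 htpos.le
    linarith
  have e3' : 13 * (t * P ^ 4) ≤ t * P ^ 6 := by
    have := mul_le_mul_of_nonneg_left e1' htpos.le
    linarith
  have e4 : 13 * t ≤ t * P ^ 2 := by nlinarith
  have e5 : t ^ 2 * P ^ 4 ≤ t * P ^ 6 := by
    have := mul_le_mul_of_nonneg_left htP (by positivity : 0 ≤ t * P ^ 4)
    linarith [show t * P ^ 4 * t = t ^ 2 * P ^ 4 by ring,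
      show t * P ^ 4 * P ^ 2 = t * P ^ 6 by ring]
  have e6 : 13 * t ^ 2 ≤ t ^ 2 * P ^ 2 := by
    nlinarith [mul_nonneg (sub_nonneg.mpr hP2) (sq_nonneg t)]
  have e7 : 13 * (t ^ 2 * P ^ 2) ≤ t ^ 2 * P ^ 4 := by
    have := mul_le_mul_of_nonneg_left e1 (sq_nonneg t)
    linarith
  have hPi2 : Pi ^ 2 ≤ 0.1 := by nlinarith
  have hPi2' : 0 < Pi ^ 2 := by positivity
  have hPi4 : Pi ^ 4 ≤ 0.1 := by
    have := mul_le_mul hPi2 hPi2 (sq_nonneg Pi) (by norm_num)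
    linarith [show Pi ^ 2 * Pi ^ 2 = Pi ^ 4 by ring]
  have hPi4' : 0 < Pi ^ 4 := by positivity
  have hPi6 : Pi ^ 6 ≤ 0.1 := by
    have := mul_le_mul hPi4 hPi2 (sq_nonneg Pi) (by norm_num)
    linarith [show Pi ^ 4 * Pi ^ 2 = Pi ^ 6 by ring]
  have hPi6' : 0 < Pi ^ 6 := by positivity
  have hti2 : ti ^ 2 ≤ 1 := by nlinarith
  have hti2' : 0 < ti ^ 2 := by positivity
  have ht2 : 0 ≤ t ^ 2 := sq_nonneg t
  have hm1 : 0 < ti * Pi ^ 2 := by positivity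
  have hm1' : ti * Pi ^ 2 ≤ 0.1 := by
    have := mul_le_mul hti1 hPi2 (sq_nonneg Pi) (by norm_num)
    linarith
  have hm2 : 0 < ti * Pi ^ 4 := by positivity
  have hm2' : ti * Pi ^ 4 ≤ 0.1 := by
    have := mul_le_mul hti1 hPi4 hPi4'.le (by norm_num)
    linarith
  have hm4 : 0 < ti * Pi ^ 6 := by positivity
  have hm4' : ti * Pi ^ 6 ≤ 0.1 := by
    have := mul_le_mul hti1 hPi6 hPi6'.le (by norm_num)
    linarith
  have hm3 : 0 < ti ^ 2 * Pi ^ 2 := by positivity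
  have hm3' : ti ^ 2 * Pi ^ 2 ≤ 0.1 := by
    have := mul_le_mul hti2 hPi2 (sq_nonneg Pi) (by norm_num)
    linarith
  have hm5 : 0 < ti ^ 2 * Pi ^ 4 := by positivity
  have hm5' : ti ^ 2 * Pi ^ 4 ≤ 0.1 := by
    have := mul_le_mul hti2 hPi4 hPi4'.le (by norm_num)
    linarith
  have hx6 : 512 * x ^ 6 - 576 * x ^ 4 + 320 * x ^ 2 = 8 * P ^ 6 + 12 * P ^ 4 + 56 * P ^ 2 + 104
      + 56 * Pi ^ 2 + 12 * Pi ^ 4 + 8 * Pi ^ 6 := by
    have h1 : 512 * x ^ 6 - 576 * x ^ 4 + 320 * x ^ 2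
        = 8 * (2 * x) ^ 6 - 36 * (2 * x) ^ 4 + 80 * (2 * x) ^ 2 := by ring
    have hP2P : P ^ 2 * Pi ^ 2 = 1 := by rw [← mul_pow, hPP]; ring
    have hP3P : P ^ 3 * Pi ^ 3 = 1 := by rw [← mul_pow, hPP]; ring
    have a1 : (P + Pi) ^ 2 = P ^ 2 + 2 + Pi ^ 2 := by linear_combination 2 * hPP
    have a2 : (P + Pi) ^ 4 = P ^ 4 + 4 * P ^ 2 + 6 + 4 * Pi ^ 2 + Pi ^ 4 := by
      linear_combination (4 * P ^ 2 + 4 * Pi ^ 2) * hPP + 6 * hP2P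
    have a3 : (P + Pi) ^ 6 = P ^ 6 + 6 * P ^ 4 + 15 * P ^ 2 + 20 + 15 * Pi ^ 2 + 6 * Pi ^ 4
        + Pi ^ 6 := by
      linear_combination (6 * P ^ 4 + 6 * Pi ^ 4) * hPP + (15 * P ^ 2 + 15 * Pi ^ 2) * hP2P
        + 20 * hP3P
    rw [h1, hx, a1, a2, a3]
    ring
  have hvv : 20 * v ^ 2 = 5 * (t ^ 2 * P ^ 4 - 2 + ti ^ 2 * Pi ^ 4) := by
    have h1 : 20 * v ^ 2 = 5 * (2 * v) ^ 2 := by ring
    rw [h1, hv]
    linear_combination (-10 * P ^ 2 * Pi ^ 2) * htt + (-10 * P * Pi - 10) * hPP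
  have hvr : 4 * v * r = t ^ 2 * P ^ 2 - P ^ 2 - Pi ^ 2 + ti ^ 2 * Pi ^ 2 := by
    have h1 : 4 * v * r = (2 * v) * (2 * r) := by ring
    rw [h1, hv, hr]
    linear_combination (-P ^ 2 - Pi ^ 2) * htt
  have hrr : 4 * r ^ 2 = t ^ 2 - 2 + ti ^ 2 := by
    have h1 : 4 * r ^ 2 = (2 * r) ^ 2 := by ring
    rw [h1, hr]
    linear_combination -2 * htt
  have hv0 : 0 ≤ v := by linarith
  have hr0 : 0 ≤ r := by linarith
  have hvr0 : 0 ≤ 4 * v * r := by positivity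
  have hvv0 : 0 ≤ v ^ 2 := sq_nonneg v
  have hrr0 : 0 ≤ r ^ 2 := sq_nonneg r
  exact ⟨by linarith, by linarith, by linarith⟩

end Pool.Agent.H69.Runge
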