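import Mathlib

/-!
# An analytic lemma for the tripartite fractional theorem

For `a b ≥ 0` there is a share `t ∈ [0,1]` with
`3/4 a (a² + m²) ≤ t (a³ + b³ + m³)` and `3/4 b (b² + m²) ≤ (1-t) (a³ + b³ + m³)` for all `m ≥ 0`.
-/

set_option autoImplicit false

namespace H69

/-- the tangent inequality -/
theorem share_aux {a K u m : ℝ} (ha : 0 ≤ a) (hu : 0 < u) (hm : 0 ≤ m)
    (hK : a ^ 3 * (1 + 3 * u ^ 2) ≤ 2 * K * u ^ 3) :
    3 / 4 * (a * (a ^ 2 + m ^ 2)) ≤ u / 2 * (K + m ^ 3) := by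
  have h1 : 0 ≤ (u * m - a) ^ 2 * (2 * (u * m) + a) := by positivity
  have h2 : 4 * u ^ 2 * (3 / 4 * (a * (a ^ 2 + m ^ 2))) ≤ 4 * u ^ 2 * (u / 2 * (K + m ^ 3)) := by
    nlinarith [h1, hK]
  exact le_of_mul_le_mul_left h2 (by positivity)

theorem share (a b : ℝ) (ha : 0 ≤ a) (hb : 0 ≤ b) :
    ∃ t : ℝ, 0 ≤ t ∧ t ≤ 1 ∧ ∀ m : ℝ, 0 ≤ m →
      3 / 4 * (a * (a ^ 2 + m ^ 2)) ≤ t * (a ^ 3 + b ^ 3 + m ^ 3) ∧
      3 / 4 * (b * (b ^ 2 + m ^ 2)) ≤ (1 - t) * (a ^ 3 + b ^ 3 + m ^ 3) := by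
  have ha3 : 0 ≤ a ^ 3 := by positivity
  have hb3 : 0 ≤ b ^ 3 := by positivity
  set K : ℝ := a ^ 3 + b ^ 3 with hK
  -- the intermediate value theorem
  have hcont : ContinuousOn (fun u : ℝ => 2 * K * u ^ 3 - a ^ 3 * (1 + 3 * u ^ 2))
      (Set.Icc 0 2) := by fun_prop
  have hivt := intermediate_value_Icc (by norm_num : (0 : ℝ) ≤ 2) hcont
  have hmem : (0 : ℝ) ∈ Set.Icc (2 * K * (0 : ℝ) ^ 3 - a ^ 3 * (1 + 3 * (0 : ℝ) ^ 2))
      (2 * K * (2 : ℝ) ^ 3 - a ^ 3 * (1 + 3 * (2 : ℝ) ^ 2)) := by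
    constructor
    · nlinarith
    · rw [hK]; nlinarith
  obtain ⟨u, ⟨hu0, hu2⟩, hu⟩ := hivt hmem
  simp only at hu
  have hu' : a ^ 3 * (1 + 3 * u ^ 2) = 2 * K * u ^ 3 := by linarith
  have hv : b ^ 3 * (1 + 3 * (2 - u) ^ 2) ≤ 2 * K * (2 - u) ^ 3 := by
    have h1 : (1 + 3 * u ^ 2) * (b ^ 3 * (1 + 3 * (2 - u) ^ 2))
        ≤ (1 + 3 * u ^ 2) * (2 * K * (2 - u) ^ 3) := by
      have hb' : b ^ 3 = K - a ^ 3 := by rw [hK]; ring
      have h2 : (1 + 3 * u ^ 2) * (2 * K * (2 - u) ^ 3)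
          - (1 + 3 * u ^ 2) * (b ^ 3 * (1 + 3 * (2 - u) ^ 2))
          = K * (3 * (1 - u * (2 - u)) ^ 2) := by
        rw [hb']
        linear_combination (1 + 3 * (2 - u) ^ 2) * hu'
      have h3 : 0 ≤ K * (3 * (1 - u * (2 - u)) ^ 2) := by
        have : 0 ≤ K := by rw [hK]; linarith
        positivity
      linarith
    exact le_of_mul_le_mul_left h1 (by positivity)
  refine ⟨u / 2, by linarith, by linarith, fun m hm => ⟨?_, ?_⟩⟩
  · rcases hu0.eq_or_lt with h0 | h0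
    · rw [← h0] at hu'
      have h1 : a ^ 3 = 0 := by linarith [hu']
      have h2 : a = 0 := by simpa using h1
      rw [h2, ← h0]; simp
    · exact share_aux ha h0 hm hu'.le
  · rcases hu2.eq_or_lt with h0 | h0
    · rw [h0] at hv
      have h1 : b ^ 3 = 0 := by linarith
      have h2 : b = 0 := by simpa using h1
      rw [h2, h0]; simp
    · have h1 := share_aux hb (by linarith : (0 : ℝ) < 2 - u) hm hv
      linarith

end H69
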